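import Mathlib
import Pool.Agent.X296.FiniteOrbit

/-!
# A geometrically nilpotent curve in the plane which is not nilpotent

Over every finite field `F` the diagonal of the affine plane is geometrically nilpotent, but not
nilpotent, for the map `T(x, y) = (x y, (x + 1) y)`.

Idea: `T` contracts the line `y = 0` to the fixed point `(0, 0)`, it is injective outside of this
line, and no point of the diagonal is the image of a point outside of this line (the difference of
the two coordinates of `T(x, y)` is `y`). All orbits are finite, so an orbit starting on the diagonal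
cannot avoid the line `y = 0`: otherwise it would be purely periodic.
-/

set_option autoImplicit false

namespace Pool.Agent.Results.MP_12bcff_ag.PlaneExample

open MvPolynomial Pool.Agent.X296

universe u

variable {F : Type u} [Field F] {n : ℕ}

/-- `Y` is the set of geometric points of a closed subvariety of affine space defined over `F`. -/
def IsSubvariety (Y : Set (Fin n → AlgebraicClosure F)) : Prop :=
  ∃ S : Set (MvPolynomial (Fin n) F), Y = {x | ∀ f ∈ S, aeval x f = 0}

/-- `Y` is nilpotent: a single iterate of `T` sends all geometric points of `Y` to a fixed point. -/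
def Nilpotent (T : Fin n → MvPolynomial (Fin n) F) (Y : Set (Fin n → AlgebraicClosure F)) : Prop :=
  ∃ P, act T P = P ∧ ∃ k, 1 ≤ k ∧ (act T)^[k] '' Y = {P}

/-- `Y` is geometrically nilpotent: every geometric point of `Y` is sent to one and the same fixed
point by some iterate of `T`. -/
def GeometricallyNilpotent (T : Fin n → MvPolynomial (Fin n) F)
    (Y : Set (Fin n → AlgebraicClosure F)) : Prop :=
  ∃ P, act T P = P ∧ ∀ Q ∈ Y, ∃ k, 1 ≤ k ∧ (act T)^[k] Q = P

/-- The map `T(x, y) = (x y, (x + 1) y)`. -/
noncomputable def T (F : Type u) [Field F] : Fin 2 → MvPolynomial (Fin 2) F :=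
  ![X 0 * X 1, (X 0 + 1) * X 1]

/-- The diagonal. -/
def Y (F : Type u) [Field F] : Set (Fin 2 → AlgebraicClosure F) := {v | v 0 = v 1}

lemma act_T_zero (v : Fin 2 → AlgebraicClosure F) : act (T F) v 0 = v 0 * v 1 := by
  simp [act, T]

lemma act_T_one (v : Fin 2 → AlgebraicClosure F) : act (T F) v 1 = (v 0 + 1) * v 1 := by
  simp [act, T]

lemma act_zero : act (T F) 0 = 0 := by
  funext i
  fin_cases i
  · exact (act_T_zero _).trans (by simp)
  · exact (act_T_one _).trans (by simp)

lemma act_line {v : Fin 2 → AlgebraicClosure F} (hv : v 1 = 0) : act (T F) v = 0 := by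
  funext i
  fin_cases i
  · exact (act_T_zero _).trans (by simp [hv])
  · exact (act_T_one _).trans (by simp [hv])

/-- The coordinates of the iterates of `(s, s)`. -/
noncomputable def co (F : Type u) [Field F] :
    ℕ → Polynomial (AlgebraicClosure F) × Polynomial (AlgebraicClosure F)
  | 0 => (Polynomial.X, Polynomial.X)
  | k + 1 => ((co F k).1 * (co F k).2, ((co F k).1 + 1) * (co F k).2)

lemma co_ne (k : ℕ) : (co F k).1 ≠ 0 ∧ (co F k).1.eval 0 = 0 ∧ (co F k).2 ≠ 0 := by
  induction k with
  | zero => exact ⟨Polynomial.X_ne_zero, Polynomial.eval_X, Polynomial.X_ne_zero⟩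
  | succ k ih =>
    obtain ⟨h1, h2, h3⟩ := ih
    refine ⟨mul_ne_zero h1 h3, ?_, mul_ne_zero ?_ h3⟩
    · show ((co F k).1 * (co F k).2).eval 0 = 0
      rw [Polynomial.eval_mul, h2, zero_mul]
    · intro h
      have := congrArg (Polynomial.eval 0) h
      simp [h2] at this

lemma iterate_diag (k : ℕ) (s : AlgebraicClosure F) :
    (act (T F))^[k] ![s, s] = ![(co F k).1.eval s, (co F k).2.eval s] := by
  induction k with
  | zero => simp [co]
  | succ k ih =>
    rw [Function.iterate_succ_apply', ih]
    funext i
    fin_cases i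
    · exact (act_T_zero _).trans (by simp [co])
    · exact (act_T_one _).trans (by simp [co])

lemma isSubvariety : IsSubvariety (Y F) := by
  refine ⟨{X 0 - X 1}, ?_⟩
  ext v
  simp [Y, sub_eq_zero]

lemma geometricallyNilpotent [Finite F] : GeometricallyNilpotent (T F) (Y F) := by
  refine ⟨0, act_zero, ?_⟩
  intro Q hQ
  obtain ⟨k, hk⟩ : ∃ k, (act (T F))^[k] Q ∈ {v : Fin 2 → AlgebraicClosure F | v 1 = 0} := by
    apply exists_mem_of_finite ?_ (orbit_finite (T F) Q) ?_
    · intro v hv w hw h
      have h0 := congrFun h 0
      have h1 := congrFun h 1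
      rw [act_T_zero, act_T_zero] at h0
      rw [act_T_one, act_T_one] at h1
      have e1 : v 1 = w 1 := by linear_combination h1 - h0
      have hw' : w 1 ≠ 0 := hw
      have e0 : v 0 = w 0 := by
        rw [e1] at h0
        exact mul_right_cancel₀ hw' h0
      funext i
      fin_cases i
      · exact e0
      · exact e1
    · intro v hv h
      apply hv
      have h0 := congrFun h 0
      have h1 := congrFun h 1
      rw [act_T_zero] at h0
      rw [act_T_one] at h1
      have hQ' : Q 0 = Q 1 := hQ
      show v 1 = 0
      linear_combination h1 - h0 - hQ'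
  refine ⟨k + 1, Nat.succ_pos k, ?_⟩
  rw [Function.iterate_succ_apply']
  exact act_line hk

lemma not_nilpotent : ¬ Nilpotent (T F) (Y F) := by
  classical
  rintro ⟨P, -, k, -, hk⟩
  have h0 : (act (T F))^[k] 0 = P := by
    have : (act (T F))^[k] 0 ∈ (act (T F))^[k] '' Y F := ⟨0, rfl, rfl⟩
    rw [hk] at this
    exact this
  rw [Function.iterate_fixed act_zero] at h0
  have hinf : Infinite (AlgebraicClosure F) := inferInstance
  obtain ⟨s, hs⟩ := Infinite.exists_notMem_finset (co F k).2.roots.toFinset
  have hs2 : (co F k).2.eval s ≠ 0 := by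
    intro h
    apply hs
    rw [Multiset.mem_toFinset, Polynomial.mem_roots (co_ne k).2.2]
    exact h
  have h1 : (act (T F))^[k] ![s, s] = P := by
    have : (act (T F))^[k] ![s, s] ∈ (act (T F))^[k] '' Y F := ⟨_, rfl, rfl⟩
    rw [hk] at this
    exact this
  rw [iterate_diag, ← h0] at h1
  exact hs2 (congrFun h1 1)

/-- Over every finite field `F`, the diagonal `Y` of the affine plane is a nonempty closed
subvariety which is geometrically nilpotent but not nilpotent with respect to the two-variable
polynomial map `T(x, y) = (x y, (x + 1) y)`. -/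
theorem result : ∀ (F : Type u) [Field F] [Finite F],
    ∃ (T : Fin 2 → MvPolynomial (Fin 2) F) (Y : Set (Fin 2 → AlgebraicClosure F)),
      T = ![X 0 * X 1, (X 0 + 1) * X 1] ∧ Y = {v | v 0 = v 1} ∧
      IsSubvariety Y ∧ Y.Nonempty ∧ GeometricallyNilpotent T Y ∧ ¬ Nilpotent T Y := by
  intro F _ _
  exact ⟨T F, Y F, rfl, rfl, isSubvariety, ⟨0, rfl⟩, geometricallyNilpotent, not_nilpotent⟩

end Pool.Agent.Results.MP_12bcff_ag.PlaneExample
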